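import Pool.Agent.Q100.Spr

/-!
# MP_abea68: no SPR embedding of `C[1, ω^ω]` into itself

The definitions are in `Pool/Agent/Q100/SprDefs.lean`: `OI β` is the ordinal interval `[1, β]` and
`DoesSPR E C` says that `E` does `C`-stable phase retrieval.
-/

set_option autoImplicit false

namespace Pool.Agent.Results.MP_abea68_an.NoSPREmbedding

open Q100.Spr Ordinal

/-- No linear isometric embedding (and, more generally, no linear isomorphic embedding) of
`C[1, ω^ω]` into itself has an image doing stable phase retrieval. -/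
theorem result :
    (∀ T : C(OI (ω ^ ω), ℝ) →ₗᵢ[ℝ] C(OI (ω ^ ω), ℝ), ∀ C : ℝ,
        ¬ DoesSPR (LinearMap.range T.toLinearMap) C) ∧
      ∀ (T : C(OI (ω ^ ω), ℝ) →L[ℝ] C(OI (ω ^ ω), ℝ)) (c : ℝ), 0 < c →
        (∀ v, c * ‖v‖ ≤ ‖T v‖) → ∀ C : ℝ, ¬ DoesSPR (LinearMap.range T.toLinearMap) C := by
  refine ⟨fun T C => ?_, fun T c hc hT C => main T c hc hT C⟩
  have h := main T.toContinuousLinearMap 1 one_pos
    (fun v => by rw [one_mul]; exact (T.norm_map v).ge) C
  exact h

end Pool.Agent.Results.MP_abea68_an.NoSPREmbedding
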